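import Pool.Agent.H.MP_1d3aa8_lc.A

set_option autoImplicit false

namespace Pool.Agent.Results.MP_1d3aa8_lc.No

open Pool.Agent.Lib.helper21.Wh Pool.Agent.H.MP_1d3aa8_lc

theorem result : (∀ f, ∃ F, IsTJ f F) ∧ ∀ f g F G H : Pb, IsTJ f F → IsTJ g G → IsTJ (Mt f g) H →
    ¬ Le f g → ¬ Le g f → Le H (Mt F G) ∧ ¬ Le (Mt F G) H := by
  refine ⟨fun f => ⟨_, isTJ f⟩, fun f g F G H a b ⟨⟨h, c, d⟩, _⟩ n n' => ?_⟩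
  have a1 := a.2 _ (ext_eqv f)
  have b1 := b.2 _ (ext_eqv g)
  have c1 := c.1.trans (mt_l f g)
  have c2 := c.1.trans (mt_r f g)
  refine ⟨d.1.trans (le_mt ((tot_le c1).trans a1) ((tot_le c2).trans b1)), fun k => ?_⟩
  obtain ⟨A, B, e1, e2, e3⟩ := ((le_mt ((mt_l _ _).trans a1) ((mt_r _ _).trans b1)).trans k).trans d.1
  have e4 : ∀ t, ∃ z, Maps A t z ∧ ∀ q ∈ Tot h z, ∃ u, Maps B (jn t q) u ∧
      (u 0 = 0 ∧ tl u ∈ Tot (ext f) (pj 0 t) ∨ u 0 = 1 ∧ tl u ∈ Tot (ext g) (pj 1 t)) := fun t =>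
    let ⟨y, hy⟩ := tot_ne (ext f) (pj 0 t)
    (e3 t ⟨cons 0 y, ⟨y, hy⟩, tot_ne _ _, .inl ⟨rfl, hy⟩⟩).imp fun _ j =>
      ⟨j.1, fun q i => (j.2.2 q i).imp fun _ l => ⟨l.2, l.1.2.2⟩⟩
  obtain ⟨z, -, e5⟩ := e4 fun _ => 0
  obtain ⟨q, e6⟩ := tot_ne h z
  obtain ⟨u, e7, ⟨j, -⟩ | ⟨j, -⟩⟩ := e5 q e6 <;> obtain ⟨m, hm⟩ := (e7 0 _).2 j
  · exact n (core two_pos one_lt_two zero_ne_one e1 e2 c2 e4 hm)
  · exact n' (core one_lt_two two_pos one_ne_zero e1 e2 c1 (fun t => (e4 t).imp fun _ j =>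
      ⟨j.1, fun q i => (j.2 q i).imp fun _ l => ⟨l.1, l.2.symm⟩⟩) hm)

end Pool.Agent.Results.MP_1d3aa8_lc.No
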